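import Pool.Agent.N483.KM.Stm
import Pool.Agent.H888R2.KT.N1

/-!
# KM7: Brascamp-Lieb inequality for linear images (helper401)
-/

set_option autoImplicit false

namespace Pool.Agent.N401.KM

open MeasureTheory Set Filter Topology
open scoped ENNReal InnerProductSpace
open Pool.Agent.R754.KG (E)

/-- a linear change of variables which realises the form `|T z|^2 / h + ε |z|^2` -/
theorem exists_S {n k : ℕ} (T : E n →ₗ[ℝ] E k) (h ε : ℝ) (hh : 0 < h) (hε : 0 < ε) :
    ∃ S : E n ≃L[ℝ] E n, ∀ z, ‖S.symm z‖ ^ 2 = ‖T z‖ ^ 2 / h + ε * ‖z‖ ^ 2 := by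
  let L : E n →ₗ[ℝ] WithLp 2 (E k × E n) :=
    (WithLp.linearEquiv 2 ℝ (E k × E n)).symm.toLinearMap ∘ₗ
      (((Real.sqrt h)⁻¹ • T).prod (Real.sqrt ε • (LinearMap.id : E n →ₗ[ℝ] E n)))
  have hL : ∀ z, ‖L z‖ ^ 2 = ‖T z‖ ^ 2 / h + ε * ‖z‖ ^ 2 := by
    intro z
    rw [WithLp.prod_norm_sq_eq_of_L2]
    have h1 : (L z).fst = (Real.sqrt h)⁻¹ • T z := rfl
    have h2 : (L z).snd = Real.sqrt ε • z := rfl
    rw [h1, h2, norm_smul, norm_smul, mul_pow, mul_pow]
    simp only [Real.norm_eq_abs, sq_abs, inv_pow]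
    rw [Real.sq_sqrt hh.le, Real.sq_sqrt hε.le]
    ring
  have hinj : Function.Injective L := by
    rw [← LinearMap.ker_eq_bot, LinearMap.ker_eq_bot']
    intro z hz
    have h1 := hL z
    rw [hz] at h1
    have h2 : 0 ≤ ‖T z‖ ^ 2 / h := by positivity
    have h3 : ε * ‖z‖ ^ 2 ≤ 0 := by
      have : ‖(0 : WithLp 2 (E k × E n))‖ ^ 2 = 0 := by simp
      linarith
    have h4 : ‖z‖ ^ 2 ≤ 0 := by
      by_contra hcon
      push Not at hcon
      have := mul_pos hε hcon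
      linarith
    have h5 : ‖z‖ = 0 := by
      have := sq_nonneg ‖z‖
      exact pow_eq_zero_iff (two_ne_zero) |>.1 (le_antisymm h4 this)
    exact norm_eq_zero.1 h5
  let e1 : E n ≃ₗ[ℝ] LinearMap.range L := LinearEquiv.ofInjective L hinj
  have hfr : Module.finrank ℝ (LinearMap.range L) = n := by
    rw [← e1.finrank_eq]; simp
  let e2 : LinearMap.range L ≃ₗᵢ[ℝ] E n :=
    ((stdOrthonormalBasis ℝ (LinearMap.range L)).reindex (finCongr hfr)).repr
  let e3 : E n ≃L[ℝ] E n := (e1.trans e2.toLinearEquiv).toContinuousLinearEquiv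
  refine ⟨e3.symm, fun z => ?_⟩
  have h1 : e3.symm.symm z = e2 (e1 z) := rfl
  rw [h1, e2.norm_map, ← hL z]
  rfl

/-- the weight -/
noncomputable def wt {n k : ℕ} (C : Set (E n)) (T : E n →ₗ[ℝ] E k) (y : E k) (h ε : ℝ) :
    E n → ℝ :=
  C.indicator fun x => Real.exp (-(‖T x - y‖ ^ 2 / (2 * h))) * Real.exp (-(ε / 2 * ‖x‖ ^ 2))

theorem wt_nonneg {n k : ℕ} (C : Set (E n)) (T : E n →ₗ[ℝ] E k) (y : E k) (h ε : ℝ) (x : E n) :
    0 ≤ wt C T y h ε x :=
  indicator_nonneg (fun x _ => by positivity) x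

theorem hmid {n k : ℕ} {C : Set (E n)} (hC : Convex ℝ C) (T : E n →ₗ[ℝ] E k) (y : E k) (h ε : ℝ)
    (S : E n ≃L[ℝ] E n) (hS : ∀ z, ‖S.symm z‖ ^ 2 = ‖T z‖ ^ 2 / h + ε * ‖z‖ ^ 2) (x x' : E n) :
    wt C T y h ε x * wt C T y h ε x' ≤ (wt C T y h ε ((1 / 2 : ℝ) • (x + x'))) ^ 2 *
      Real.exp (-(‖S.symm (x - x')‖ ^ 2 / 4)) := by
  by_cases hx : x ∈ C
  swap
  · have : wt C T y h ε x = 0 := indicator_of_notMem hx _
    rw [this, zero_mul]; positivity
  by_cases hx' : x' ∈ C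
  swap
  · have : wt C T y h ε x' = 0 := indicator_of_notMem hx' _
    rw [this, mul_zero]; positivity
  have hm : (1 / 2 : ℝ) • (x + x') ∈ C := by
    rw [smul_add]
    exact hC hx hx' (by norm_num) (by norm_num) (by norm_num)
  simp only [wt]
  rw [indicator_of_mem hx, indicator_of_mem hx', indicator_of_mem hm, hS,
    sq (Real.exp _ * Real.exp _)]
  simp only [← Real.exp_add]
  apply le_of_eq
  congr 1
  have p1 := parallelogram_law_with_norm ℝ (T x - y) (T x' - y)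
  have p2 := parallelogram_law_with_norm ℝ x x'
  have e1 : T x - y + (T x' - y) = (2 : ℝ) • (T ((1 / 2 : ℝ) • (x + x')) - y) := by
    rw [map_smul, map_add]
    module
  have e2 : T x - y - (T x' - y) = T (x - x') := by
    rw [map_sub]; abel
  have e3 : x + x' = (2 : ℝ) • ((1 / 2 : ℝ) • (x + x')) := by module
  rw [e1, e2, norm_smul] at p1
  have e4 : ‖x + x'‖ = ‖(2 : ℝ)‖ * ‖(1 / 2 : ℝ) • (x + x')‖ := by
    rw [← norm_smul, ← e3]
  rw [e4] at p2
  simp only [Real.norm_ofNat] at p1 p2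
  generalize ‖T x - y‖ = a at *
  generalize ‖T x' - y‖ = a' at *
  generalize ‖T ((1 / 2 : ℝ) • (x + x')) - y‖ = m at *
  generalize ‖T (x - x')‖ = t at *
  generalize ‖x - x'‖ = t' at *
  generalize ‖(1 / 2 : ℝ) • (x + x')‖ = m' at *
  linear_combination (1 / (4 * h)) * p1 + ε / 4 * p2

/-- integrals of continuous functions over `C` with the weight -/
noncomputable def In {n k : ℕ} (C : Set (E n)) (T : E n →ₗ[ℝ] E k) (y : E k) (h ε : ℝ)
    (ψ : E n → ℝ) : ℝ :=
  ∫ x in C, ψ x * (Real.exp (-(‖T x - y‖ ^ 2 / (2 * h))) * Real.exp (-(ε / 2 * ‖x‖ ^ 2)))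

theorem cont_wt {n k : ℕ} (T : E n →ₗ[ℝ] E k) (y : E k) (h ε : ℝ) :
    Continuous fun x : E n =>
      Real.exp (-(‖T x - y‖ ^ 2 / (2 * h))) * Real.exp (-(ε / 2 * ‖x‖ ^ 2)) := by
  have hT : Continuous T := T.continuous_of_finiteDimensional
  fun_prop

theorem int_wt {n k : ℕ} {C : Set (E n)} (hC : IsCompact C) (T : E n →ₗ[ℝ] E k) (y : E k)
    (h ε : ℝ) {ψ : E n → ℝ} (hψ : Continuous ψ) :
    IntegrableOn (fun x => ψ x *
      (Real.exp (-(‖T x - y‖ ^ 2 / (2 * h))) * Real.exp (-(ε / 2 * ‖x‖ ^ 2)))) C :=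
  (hψ.mul (cont_wt T y h ε)).continuousOn.integrableOn_compact hC

theorem integral_wt {n k : ℕ} {C : Set (E n)} (hC : IsCompact C) (T : E n →ₗ[ℝ] E k) (y : E k)
    (h ε : ℝ) (ψ : E n → ℝ) : ∫ x, ψ x * wt C T y h ε x = In C T y h ε ψ := by
  rw [In, ← integral_indicator hC.measurableSet]
  congr 1
  ext x
  by_cases hx : x ∈ C
  · rw [wt, indicator_of_mem hx, indicator_of_mem hx]
  · rw [wt, indicator_of_notMem hx, indicator_of_notMem hx, mul_zero]

/-- the inequality with `ε > 0` -/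
theorem var_eps {n k : ℕ} {C : Set (E n)} (hCc : Convex ℝ C) (hC : IsCompact C)
    (T : E n →ₗ[ℝ] E k) (y : E k) (h ε : ℝ) (hh : 0 < h) (hε : 0 < ε) (φ : E k → ℝ)
    (hφ : ContDiff ℝ 1 φ) :
    In C T y h ε (fun x => φ (T x) ^ 2) * In C T y h ε (fun _ => 1) -
      In C T y h ε (fun x => φ (T x)) ^ 2 ≤
      h * In C T y h ε (fun x => ‖fderiv ℝ φ (T x)‖ ^ 2) * In C T y h ε (fun _ => 1) := by
  have hTc : Continuous T := T.continuous_of_finiteDimensional
  let T' : E n →L[ℝ] E k := LinearMap.toContinuousLinearMap T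
  have hT' : ∀ x, T' x = T x := fun x => rfl
  obtain ⟨S, hS⟩ := exists_S T h ε hh hε
  have hfd : Continuous (fderiv ℝ φ) := hφ.continuous_fderiv (by norm_num)
  have hf : ContDiff ℝ 1 (fun x => φ (T x)) := hφ.comp T'.contDiff
  obtain ⟨c, hc⟩ := Pool.Agent.H888R2.KT.bl_lin (wt C T y h ε) (wt_nonneg C T y h ε)
    ((cont_wt T y h ε).measurable.indicator hC.measurableSet)
    ⟨1, fun x => by
      by_cases hx : x ∈ C
      · rw [wt, indicator_of_mem hx, ← Real.exp_add]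
        apply Real.exp_le_one_iff.2
        have h1 : 0 ≤ ‖T x - y‖ ^ 2 / (2 * h) := by positivity
        have h2 : 0 ≤ ε / 2 * ‖x‖ ^ 2 := by positivity
        linarith
      · rw [wt, indicator_of_notMem hx]; exact zero_le_one⟩
    (by
      obtain ⟨R, hR⟩ := hC.isBounded.exists_norm_le
      refine ⟨R, fun x hx => indicator_of_notMem (fun hxC => ?_) _⟩
      exact absurd (hR x hxC) (not_le.2 hx))
    S (hmid hCc T y h ε S hS) (fun x => φ (T x)) hf
  rw [integral_wt hC T y h ε (fun x => (φ (T x) - c) ^ 2),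
    integral_wt hC T y h ε (fun x => ‖(fderiv ℝ (fun x => φ (T x)) x).comp
      (S : E n →L[ℝ] E n)‖ ^ 2)] at hc
  -- the derivative
  have hder : ∀ x, ‖(fderiv ℝ (fun x => φ (T x)) x).comp (S : E n →L[ℝ] E n)‖ ^ 2 ≤
      h * ‖fderiv ℝ φ (T x)‖ ^ 2 := by
    intro x
    have h1 : fderiv ℝ (fun x => φ (T x)) x = (fderiv ℝ φ (T x)).comp T' := by
      have h2 : HasFDerivAt φ (fderiv ℝ φ (T' x)) (T' x) :=
        (hφ.differentiable (by norm_num) (T' x)).hasFDerivAt
      exact (h2.comp x T'.hasFDerivAt).fderiv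
    have h3 : ‖(fderiv ℝ (fun x => φ (T x)) x).comp (S : E n →L[ℝ] E n)‖ ≤
        ‖fderiv ℝ φ (T x)‖ * Real.sqrt h := by
      rw [h1]
      refine ContinuousLinearMap.opNorm_le_bound _ (by positivity) fun u => ?_
      have h4 : ‖T' (S u)‖ ≤ Real.sqrt h * ‖u‖ := by
        have h5 := hS (S u)
        rw [ContinuousLinearEquiv.symm_apply_apply] at h5
        have h6 : ‖T (S u)‖ ^ 2 ≤ h * ‖u‖ ^ 2 := by
          have h7 : 0 ≤ ε * ‖S u‖ ^ 2 := by positivity
          have h8 : ‖T (S u)‖ ^ 2 / h ≤ ‖u‖ ^ 2 := by linarith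
          rw [div_le_iff₀ hh] at h8
          linarith
        have h9 : ‖T' (S u)‖ ≤ Real.sqrt (h * ‖u‖ ^ 2) := Real.le_sqrt_of_sq_le h6
        rwa [Real.sqrt_mul hh.le, Real.sqrt_sq (norm_nonneg _)] at h9
      calc ‖(((fderiv ℝ φ (T x)).comp T').comp (S : E n →L[ℝ] E n)) u‖
          = ‖fderiv ℝ φ (T x) (T' (S u))‖ := rfl
        _ ≤ ‖fderiv ℝ φ (T x)‖ * ‖T' (S u)‖ := ContinuousLinearMap.le_opNorm _ _
        _ ≤ ‖fderiv ℝ φ (T x)‖ * (Real.sqrt h * ‖u‖) := by gcongr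
        _ = ‖fderiv ℝ φ (T x)‖ * Real.sqrt h * ‖u‖ := by ring
    calc ‖(fderiv ℝ (fun x => φ (T x)) x).comp (S : E n →L[ℝ] E n)‖ ^ 2
        ≤ (‖fderiv ℝ φ (T x)‖ * Real.sqrt h) ^ 2 := by gcongr
      _ = h * ‖fderiv ℝ φ (T x)‖ ^ 2 := by rw [mul_pow, Real.sq_sqrt hh.le]; ring
  have hfd2 : Continuous (fderiv ℝ fun x => φ (T x)) := hf.continuous_fderiv (by norm_num)
  have hRHS : In C T y h ε (fun x => ‖(fderiv ℝ (fun x => φ (T x)) x).comp
      (S : E n →L[ℝ] E n)‖ ^ 2) ≤ h * In C T y h ε (fun x => ‖fderiv ℝ φ (T x)‖ ^ 2) := by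
    rw [In, In, ← integral_const_mul]
    refine integral_mono (int_wt hC T y h ε ?_) ((int_wt hC T y h ε ?_).const_mul h) ?_
    · exact (continuous_norm.comp (hfd2.clm_comp continuous_const)).pow 2
    · exact (continuous_norm.comp (hfd.comp hTc)).pow 2
    · intro x
      have hp : 0 ≤ Real.exp (-(‖T x - y‖ ^ 2 / (2 * h))) * Real.exp (-(ε / 2 * ‖x‖ ^ 2)) := by
        positivity
      calc ‖(fderiv ℝ (fun x => φ (T x)) x).comp (S : E n →L[ℝ] E n)‖ ^ 2 * _
          ≤ (h * ‖fderiv ℝ φ (T x)‖ ^ 2) * _ := mul_le_mul_of_nonneg_right (hder x) hp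
        _ = _ := by ring
  -- the left side
  have hφT : Continuous fun x => φ (T x) := hφ.continuous.comp hTc
  have hLHS : In C T y h ε (fun x => (φ (T x) - c) ^ 2) =
      In C T y h ε (fun x => φ (T x) ^ 2) - 2 * c * In C T y h ε (fun x => φ (T x)) +
        c ^ 2 * In C T y h ε (fun _ => 1) := by
    simp only [In]
    rw [← integral_const_mul, ← integral_const_mul, ← integral_sub, ← integral_add]
    · congr 1
      ext x
      ring
    · exact (int_wt hC T y h ε (hφT.pow 2)).sub ((int_wt hC T y h ε hφT).const_mul _)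
    · exact (int_wt hC T y h ε continuous_const).const_mul _
    · exact int_wt hC T y h ε (hφT.pow 2)
    · exact (int_wt hC T y h ε hφT).const_mul _
  have hI1 : 0 ≤ In C T y h ε (fun _ => 1) := integral_nonneg fun x => by positivity
  have hle := hc.trans hRHS
  rw [hLHS] at hle
  nlinarith [mul_le_mul_of_nonneg_right hle hI1,
    sq_nonneg (In C T y h ε (fun x => φ (T x)) - c * In C T y h ε (fun _ => 1))]

/-- the limit `ε → 0` -/
theorem tends {n k : ℕ} {C : Set (E n)} (hC : IsCompact C) (T : E n →ₗ[ℝ] E k) (y : E k) (h : ℝ)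
    {ψ : E n → ℝ} (hψ : Continuous ψ) :
    Tendsto (fun m : ℕ => In C T y h (1 / ((m : ℝ) + 1)) ψ) atTop
      (𝓝 (∫ x in C, ψ x * Real.exp (-(‖T x - y‖ ^ 2 / (2 * h))))) := by
  have hT : Continuous T := T.continuous_of_finiteDimensional
  have hc : Continuous fun x => ψ x * Real.exp (-(‖T x - y‖ ^ 2 / (2 * h))) := by fun_prop
  refine tendsto_integral_of_dominated_convergence
    (fun x => ‖ψ x * Real.exp (-(‖T x - y‖ ^ 2 / (2 * h)))‖) (fun m => ?_) ?_ (fun m => ?_) ?_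
  · exact (int_wt hC T y h _ hψ).aestronglyMeasurable
  · exact (hc.continuousOn.integrableOn_compact hC).norm
  · refine Eventually.of_forall fun x => ?_
    rw [← mul_assoc, norm_mul]
    have h1 : ‖Real.exp (-(1 / ((m : ℝ) + 1) / 2 * ‖x‖ ^ 2))‖ ≤ 1 := by
      rw [Real.norm_eq_abs, abs_of_pos (Real.exp_pos _)]
      apply Real.exp_le_one_iff.2
      have : 0 ≤ 1 / ((m : ℝ) + 1) / 2 * ‖x‖ ^ 2 := by positivity
      linarith
    exact mul_le_of_le_one_right (norm_nonneg _) h1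
  · refine Eventually.of_forall fun x => ?_
    have h1 : Tendsto (fun m : ℕ => 1 / ((m : ℝ) + 1)) atTop (𝓝 0) :=
      tendsto_one_div_add_atTop_nhds_zero_nat
    have h2 : Continuous fun e : ℝ => ψ x * (Real.exp (-(‖T x - y‖ ^ 2 / (2 * h))) *
        Real.exp (-(e / 2 * ‖x‖ ^ 2))) := by fun_prop
    have h3 := (h2.tendsto 0).comp h1
    have h4 : ψ x * (Real.exp (-(‖T x - y‖ ^ 2 / (2 * h))) *
        Real.exp (-((0 : ℝ) / 2 * ‖x‖ ^ 2))) =
        ψ x * Real.exp (-(‖T x - y‖ ^ 2 / (2 * h))) := by simp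
    rw [← h4]
    exact h3

theorem t_BLI : Pool.Agent.N483.KM.S_BLI := by
  intro n k C T y h φ hCc hC hh hφ
  have hT : Continuous T := T.continuous_of_finiteDimensional
  have hφT : Continuous fun x => φ (T x) := hφ.continuous.comp hT
  have hfd : Continuous (fderiv ℝ φ) := hφ.continuous_fderiv (by norm_num)
  have hfdT : Continuous fun x => ‖fderiv ℝ φ (T x)‖ ^ 2 :=
    (continuous_norm.comp (hfd.comp hT)).pow 2
  set g : E n → ℝ := fun x => Real.exp (-(‖T x - y‖ ^ 2 / (2 * h))) with hg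
  have hgc : Continuous g := by rw [hg]; fun_prop
  set I2 := ∫ x in C, φ (T x) ^ 2 * g x with hI2
  set I1 := ∫ x in C, φ (T x) * g x with hI1
  set I0 := ∫ x in C, (1 : ℝ) * g x with hI0
  set D := ∫ x in C, ‖fderiv ℝ φ (T x)‖ ^ 2 * g x with hD
  have key : I2 * I0 - I1 ^ 2 ≤ h * D * I0 := by
    have t2 := tends hC T y h (ψ := fun x => φ (T x) ^ 2) (hφT.pow 2)
    have t1 := tends hC T y h (ψ := fun x => φ (T x)) hφT
    have t0 := tends hC T y h (ψ := fun _ => 1) continuous_const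
    have tD := tends hC T y h (ψ := fun x => ‖fderiv ℝ φ (T x)‖ ^ 2) hfdT
    refine le_of_tendsto_of_tendsto ((t2.mul t0).sub (t1.pow 2)) ((tD.const_mul h).mul t0) ?_
    refine Eventually.of_forall fun m => ?_
    exact var_eps hCc hC T y h (1 / ((m : ℝ) + 1)) hh (by positivity) φ hφ
  have hii : ∀ {ψ : E n → ℝ}, Continuous ψ → IntegrableOn (fun x => ψ x * g x) C :=
    fun hψ => (hψ.mul hgc).continuousOn.integrableOn_compact hC
  have hexp : ∀ c : ℝ, ∫ x in C, (φ (T x) - c) ^ 2 * g x = I2 - 2 * c * I1 + c ^ 2 * I0 := by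
    intro c
    rw [hI2, hI1, hI0, ← integral_const_mul, ← integral_const_mul, ← integral_sub,
      ← integral_add]
    · congr 1
      ext x
      ring
    · exact (hii (hφT.pow 2)).sub ((hii hφT).const_mul _)
    · exact (hii continuous_const).const_mul _
    · exact hii (hφT.pow 2)
    · exact (hii hφT).const_mul _
  have hI0n : 0 ≤ I0 := integral_nonneg fun x => by positivity
  have hDn : 0 ≤ D := integral_nonneg fun x => by positivity
  rcases hI0n.eq_or_lt with h0 | h0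
  · refine ⟨0, ?_⟩
    have h1 : (fun x => (1 : ℝ) * g x) =ᵐ[volume.restrict C] 0 :=
      (integral_eq_zero_iff_of_nonneg (fun x => by positivity) (hii continuous_const)).1 h0.symm
    have h2 : ∫ x in C, (φ (T x) - 0) ^ 2 * g x = 0 := by
      rw [integral_congr_ae (g := fun _ => (0 : ℝ)), integral_zero]
      filter_upwards [h1] with x hx
      have h3 : g x = 0 := by simpa using hx
      rw [h3]; simp
    rw [h2]
    positivity
  · refine ⟨I1 / I0, ?_⟩
    rw [hexp]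
    have h1 : I2 - 2 * (I1 / I0) * I1 + (I1 / I0) ^ 2 * I0 = (I2 * I0 - I1 ^ 2) / I0 := by
      field_simp
      ring
    rw [h1, div_le_iff₀ h0]
    exact key

end Pool.Agent.N401.KM
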